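import Mathlib

/-!
# A convexity lemma for fractional packings

Among all fractional packings `F ≥ 0`, `load F e ≤ g e`, take one which minimises the sum of the
fourth powers of the vertex leftovers.
-/

namespace H30Q

open Finset Filter Topology

variable {T E V : Type*} [Fintype T] [Fintype E] [Fintype V]

/-- linear functional given by a matrix column -/
def lin {X : Type*} (A : T → X → ℝ) (F : T → ℝ) (e : X) : ℝ := ∑ t, A t e * F t

theorem lin_comb {X : Type*} (A : T → X → ℝ) (F G : T → ℝ) (ε : ℝ) (e : X) :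
    lin A (fun t => (1 - ε) * F t + ε * G t) e = lin A F e + ε * (lin A G e - lin A F e) := by
  unfold lin
  rw [← Finset.sum_sub_distrib, Finset.mul_sum, ← Finset.sum_add_distrib]
  refine Finset.sum_congr rfl fun t _ => ?_
  ring

theorem exists_min (A : T → E → ℝ) (B : T → V → ℝ) (g : E → ℝ) (N : V → ℝ)
    (hA0 : ∀ t e, 0 ≤ A t e) (hA1 : ∀ t, ∃ e, 1 ≤ A t e) (hg0 : ∀ e, 0 ≤ g e)
    (hg1 : ∀ e, g e ≤ 1) :
    ∃ F : T → ℝ, (∀ t, 0 ≤ F t) ∧ (∀ e, lin A F e ≤ g e) ∧
      ∀ G : T → ℝ, (∀ t, 0 ≤ G t) → (∀ e, lin A F e = g e → lin A G e ≤ g e) →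
        ∑ v, (N v - lin B F v) ^ 3 * lin B G v ≤ ∑ v, (N v - lin B F v) ^ 3 * lin B F v := by
  classical
  set K : Set (T → ℝ) := {F | (∀ t, 0 ≤ F t) ∧ ∀ e, lin A F e ≤ g e} with hK
  have hcA : ∀ e, Continuous fun F : T → ℝ => lin A F e := by
    intro e
    unfold lin
    fun_prop
  have hcB : ∀ v, Continuous fun F : T → ℝ => lin B F v := by
    intro v
    unfold lin
    fun_prop
  have hclosed : IsClosed K := by
    have h1 : K = (⋂ t, {F : T → ℝ | 0 ≤ F t}) ∩ ⋂ e, {F : T → ℝ | lin A F e ≤ g e} := by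
      ext F
      simp [hK]
    rw [h1]
    refine IsClosed.inter (isClosed_iInter fun t => ?_) (isClosed_iInter fun e => ?_)
    · exact isClosed_le continuous_const (continuous_apply t)
    · exact isClosed_le (hcA e) continuous_const
  have hsub : K ⊆ Set.Icc (0 : T → ℝ) 1 := by
    intro F hF
    refine ⟨fun t => hF.1 t, fun t => ?_⟩
    obtain ⟨e, he⟩ := hA1 t
    have h1 : A t e * F t ≤ lin A F e :=
      Finset.single_le_sum (f := fun t => A t e * F t)
        (fun t _ => mul_nonneg (hA0 t e) (hF.1 t)) (Finset.mem_univ t)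
    have h2 : F t ≤ A t e * F t := le_mul_of_one_le_left (hF.1 t) he
    have h3 := hF.2 e
    have h4 := hg1 e
    show F t ≤ 1
    linarith
  have hcomp : IsCompact K := isCompact_Icc.of_isClosed_subset hclosed hsub
  have hne : K.Nonempty := by
    refine ⟨fun _ => 0, fun _ => le_rfl, fun e => ?_⟩
    simp only [lin, mul_zero, Finset.sum_const_zero]
    exact hg0 e
  have hcont : Continuous fun F : T → ℝ => ∑ v, (N v - lin B F v) ^ 4 :=
    continuous_finsetSum _ fun v _ => (continuous_const.sub (hcB v)).pow 4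
  obtain ⟨F, hFK, hmin⟩ := hcomp.exists_isMinOn hne hcont.continuousOn
  refine ⟨F, hFK.1, hFK.2, ?_⟩
  intro G hG0 hG
  by_contra hcon
  push Not at hcon
  set p : V → ℝ := fun v => N v - lin B F v with hp
  set δ : V → ℝ := fun v => lin B G v - lin B F v with hδ
  set D : ℝ := ∑ v, p v ^ 3 * δ v with hD
  have hDpos : 0 < D := by
    have : D = ∑ v, (N v - lin B F v) ^ 3 * lin B G v - ∑ v, (N v - lin B F v) ^ 3 * lin B F v := by
      rw [hD, ← Finset.sum_sub_distrib]
      refine Finset.sum_congr rfl fun v _ => ?_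
      simp only [hp, hδ]
      ring
    linarith
  -- small steps decrease the functional
  have hev1 : ∀ᶠ ε : ℝ in 𝓝 0,
      -4 * D + ε * ∑ v, (6 * p v ^ 2 * δ v ^ 2 - 4 * ε * p v * δ v ^ 3 + ε ^ 2 * δ v ^ 4) < 0 := by
    have hc : Continuous fun ε : ℝ =>
        -4 * D + ε * ∑ v, (6 * p v ^ 2 * δ v ^ 2 - 4 * ε * p v * δ v ^ 3 + ε ^ 2 * δ v ^ 4) := by
      fun_prop
    have h0 : -4 * D + (0 : ℝ) * ∑ v, (6 * p v ^ 2 * δ v ^ 2 - 4 * 0 * p v * δ v ^ 3 +
        0 ^ 2 * δ v ^ 4) < 0 := by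
      rw [zero_mul]; linarith
    exact hc.continuousAt.eventually (Iio_mem_nhds h0)
  have hev2 : ∀ᶠ ε : ℝ in 𝓝 0, ∀ e, lin A F e < g e →
      lin A F e + ε * (lin A G e - lin A F e) < g e := by
    rw [Filter.eventually_all]
    intro e
    by_cases he : lin A F e < g e
    · have hc : Continuous fun ε : ℝ => lin A F e + ε * (lin A G e - lin A F e) := by fun_prop
      have h0 : lin A F e + (0 : ℝ) * (lin A G e - lin A F e) < g e := by
        rw [zero_mul, add_zero]; exact he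
      exact (hc.continuousAt.eventually (Iio_mem_nhds h0)).mono fun ε hε _ => hε
    · exact Filter.Eventually.of_forall fun ε h => absurd h he
  have hev3 : ∀ᶠ ε : ℝ in 𝓝[>] (0 : ℝ), ε ∈ Set.Ioo (0 : ℝ) 1 := Ioo_mem_nhdsGT one_pos
  obtain ⟨ε, ⟨h1, h2⟩, h3, h4⟩ :=
    (((hev1.and hev2).filter_mono nhdsWithin_le_nhds).and hev3).exists
  set F' : T → ℝ := fun t => (1 - ε) * F t + ε * G t with hF'
  have hF'K : F' ∈ K := by
    refine ⟨fun t => ?_, fun e => ?_⟩
    · exact add_nonneg (mul_nonneg (by linarith) (hFK.1 t)) (mul_nonneg h3.le (hG0 t))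
    · rw [hF', lin_comb]
      rcases (hFK.2 e).lt_or_eq with hlt | heq
      · exact (h2 e hlt).le
      · have h5 := hG e heq
        rw [heq]
        nlinarith
  have h6 := hmin hF'K
  have h7 : ∑ v, (N v - lin B F v) ^ 4 ≤ ∑ v, (N v - lin B F' v) ^ 4 := h6
  have h8 : ∑ v, (N v - lin B F' v) ^ 4 = ∑ v, (N v - lin B F v) ^ 4 +
      ε * (-4 * D + ε * ∑ v, (6 * p v ^ 2 * δ v ^ 2 - 4 * ε * p v * δ v ^ 3 +
        ε ^ 2 * δ v ^ 4)) := by
    rw [hD, Finset.mul_sum, Finset.mul_sum, ← Finset.sum_add_distrib, Finset.mul_sum,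
      ← Finset.sum_add_distrib]
    refine Finset.sum_congr rfl fun v _ => ?_
    rw [hF', lin_comb]
    simp only [hp, hδ]
    ring
  have h9 : ε * (-4 * D + ε * ∑ v, (6 * p v ^ 2 * δ v ^ 2 - 4 * ε * p v * δ v ^ 3 +
        ε ^ 2 * δ v ^ 4)) < 0 := mul_neg_of_pos_of_neg h3 h1
  linarith

end H30Q
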