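import Mathlib

/-!
# The pointwise inequality
-/

namespace H30Q

/-- `q x = 16 x³ / (1 + 12 x²)` -/
theorem share_half {a b x m : ℝ} (ha : 0 ≤ a) (hm : 0 ≤ m) (hx : 0 < x)
    (h : a ^ 3 * (1 + 12 * x ^ 2) ≤ 16 * x ^ 3 * (a ^ 3 + b ^ 3)) :
    3 / 4 * (a * (a ^ 2 + m ^ 2)) ≤ x * (a ^ 3 + b ^ 3 + m ^ 3) := by
  have h1 : 0 ≤ (2 * x * m - a) ^ 2 * (2 * (2 * x * m) + a) := by positivity
  have h2 : 0 ≤ 16 * x ^ 2 * (x * (a ^ 3 + b ^ 3 + m ^ 3) - 3 / 4 * (a * (a ^ 2 + m ^ 2))) := by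
    have h3 : 16 * x ^ 2 * (x * (a ^ 3 + b ^ 3 + m ^ 3) - 3 / 4 * (a * (a ^ 2 + m ^ 2)))
        = (16 * x ^ 3 * (a ^ 3 + b ^ 3) - a ^ 3 * (1 + 12 * x ^ 2))
          + (2 * x * m - a) ^ 2 * (2 * (2 * x * m) + a) := by ring
    rw [h3]
    linarith
  have h4 : 0 < 16 * x ^ 2 := by positivity
  have h5 := nonneg_of_mul_nonneg_right h2 h4
  linarith

theorem share_one {a m : ℝ} (ha : 0 ≤ a) (hm : 0 ≤ m) :
    3 / 4 * (a * (a ^ 2 + m ^ 2)) ≤ a ^ 3 + m ^ 3 := by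
  have h1 : 0 ≤ (a - m) ^ 2 * (a + 2 * m) := by positivity
  have h2 : 0 ≤ m ^ 3 := by positivity
  nlinarith

theorem share (a b : ℝ) (ha : 0 ≤ a) (hb : 0 ≤ b) :
    ∃ x : ℝ, 0 ≤ x ∧ x ≤ 1 ∧ ∀ m : ℝ, 0 ≤ m →
      3 / 4 * (a * (a ^ 2 + m ^ 2)) ≤ x * (a ^ 3 + b ^ 3 + m ^ 3) ∧
      3 / 4 * (b * (b ^ 2 + m ^ 2)) ≤ (1 - x) * (a ^ 3 + b ^ 3 + m ^ 3) := by
  rcases ha.eq_or_lt with rfl | ha'
  · refine ⟨0, le_rfl, zero_le_one, fun m hm => ⟨by simp, ?_⟩⟩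
    have := share_one hb hm
    linarith
  rcases hb.eq_or_lt with rfl | hb'
  · refine ⟨1, zero_le_one, le_rfl, fun m hm => ⟨?_, by simp⟩⟩
    have := share_one ha hm
    linarith
  -- the main case
  have hc : ContinuousOn (fun x : ℝ => 16 * x ^ 3 * (a ^ 3 + b ^ 3) - a ^ 3 * (1 + 12 * x ^ 2))
      (Set.Icc 0 1) := by fun_prop
  have ha3 : 0 < a ^ 3 := by positivity
  have hb3 : 0 < b ^ 3 := by positivity
  obtain ⟨x, hx, hxe⟩ : (0 : ℝ) ∈ (fun x : ℝ => 16 * x ^ 3 * (a ^ 3 + b ^ 3)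
      - a ^ 3 * (1 + 12 * x ^ 2)) '' Set.Icc 0 1 := by
    refine intermediate_value_Icc (zero_le_one) hc ⟨?_, ?_⟩
    · norm_num
      exact ha3.le
    · norm_num
      nlinarith
  have hxe' : 16 * x ^ 3 * (a ^ 3 + b ^ 3) = a ^ 3 * (1 + 12 * x ^ 2) := by
    have : 16 * x ^ 3 * (a ^ 3 + b ^ 3) - a ^ 3 * (1 + 12 * x ^ 2) = 0 := hxe
    linarith
  have hx0 : 0 < x := by
    rcases hx.1.eq_or_lt with h | h
    · exfalso
      rw [← h] at hxe'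
      norm_num at hxe'
      linarith [hxe']
    · exact h
  -- the other part
  have hkey : b ^ 3 * (1 + 12 * (1 - x) ^ 2) ≤ 16 * (1 - x) ^ 3 * (b ^ 3 + a ^ 3) := by
    -- b³ = S - a³,  a³ = 16 x³ S / (1 + 12 x²)
    set S := a ^ 3 + b ^ 3 with hS
    have hSpos : 0 < S := by positivity
    have hD : 0 < 1 + 12 * x ^ 2 := by positivity
    have hbS : b ^ 3 = S - a ^ 3 := by rw [hS]; ring
    have h1 : b ^ 3 * (1 + 12 * x ^ 2) = S * (1 + 12 * x ^ 2 - 16 * x ^ 3) := by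
      rw [hbS]
      nlinarith
    have h2 : 0 ≤ (16 * (1 - x) ^ 3 * S - b ^ 3 * (1 + 12 * (1 - x) ^ 2)) * (1 + 12 * x ^ 2) := by
      have h3 : (16 * (1 - x) ^ 3 * S - b ^ 3 * (1 + 12 * (1 - x) ^ 2)) * (1 + 12 * x ^ 2)
          = 16 * (1 - x) ^ 3 * S * (1 + 12 * x ^ 2)
            - (b ^ 3 * (1 + 12 * x ^ 2)) * (1 + 12 * (1 - x) ^ 2) := by ring
      rw [h3, h1]
      have h4 : 16 * (1 - x) ^ 3 * S * (1 + 12 * x ^ 2)
            - (S * (1 + 12 * x ^ 2 - 16 * x ^ 3)) * (1 + 12 * (1 - x) ^ 2)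
          = S * (3 * (1 - 4 * x * (1 - x)) ^ 2) := by ring
      rw [h4]
      positivity
    have h5 := nonneg_of_mul_nonneg_left h2 hD
    have h6 : b ^ 3 + a ^ 3 = S := by rw [hS]; ring
    rw [h6]
    linarith
  have hx1 : x < 1 := by
    rcases hx.2.eq_or_lt with h | h
    · exfalso
      rw [h] at hkey
      norm_num at hkey
      linarith [hkey]
    · exact h
  refine ⟨x, hx.1, hx.2, fun m hm => ⟨?_, ?_⟩⟩
  · exact share_half ha hm hx0 hxe'.ge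
  · have := share_half hb hm (x := 1 - x) (by linarith) hkey
    have h7 : b ^ 3 + a ^ 3 + m ^ 3 = a ^ 3 + b ^ 3 + m ^ 3 := by ring
    rw [h7] at this
    exact this

end H30Q
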