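import Pool.Agent.H30.Q.Conv
import Pool.Agent.H30.Q.Share
import Pool.Agent.NW3.Sample3

/-!
# The fractional theorem for tripartite graphs at `n / 4`
-/

namespace H30Q

open Finset H56FP

/-- the share function -/
noncomputable def φ (x y z : ℝ) : ℝ := 3 / 4 * (x ^ 2 + y ^ 2) / (x ^ 3 + y ^ 3 + z ^ 3)

theorem φ_nonneg {x y z : ℝ} (hx : 0 ≤ x) (hy : 0 ≤ y) (hz : 0 ≤ z) : 0 ≤ φ x y z := by
  unfold φ
  positivity

theorem φ_mul {x y z : ℝ} (hx : 0 ≤ x) (hy : 0 ≤ y) (hz : 0 ≤ z) :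
    (x ^ 3 + y ^ 3 + z ^ 3) * φ x y z = 3 / 4 * (x ^ 2 + y ^ 2) := by
  unfold φ
  have hx3 : 0 ≤ x ^ 3 := by positivity
  have hy3 : 0 ≤ y ^ 3 := by positivity
  have hz3 : 0 ≤ z ^ 3 := by positivity
  by_cases h : x ^ 3 + y ^ 3 + z ^ 3 = 0
  · have h1 : x ^ 3 = 0 := by linarith
    have h2 : y ^ 3 = 0 := by linarith
    have h1' : x = 0 := by simpa using h1
    have h2' : y = 0 := by simpa using h2
    rw [h, h1', h2']
    norm_num
  · rw [mul_div_cancel₀ _ h]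

/-- One share: if `3/4 a (a² + m²) ≤ x S` then `Q · φ ≤ Q · (x / a)`. -/
theorem share_use {a b m x Q : ℝ} (ha : 0 ≤ a) (hb : 0 ≤ b) (hm : 0 ≤ m)
    (hQ : 0 ≤ Q) (hQa : a = 0 → Q = 0)
    (h : 3 / 4 * (a * (a ^ 2 + m ^ 2)) ≤ x * (a ^ 3 + b ^ 3 + m ^ 3)) :
    Q * φ m a b ≤ Q * (x / a) := by
  rcases ha.eq_or_lt with h0 | h0
  · rw [hQa h0.symm]; simp
  · refine mul_le_mul_of_nonneg_left ?_ hQ
    unfold φ
    have hS : 0 < m ^ 3 + a ^ 3 + b ^ 3 := by positivity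
    rw [div_le_div_iff₀ hS h0]
    nlinarith

theorem φ_symm (x y z : ℝ) : φ x y z = φ y x z := by
  unfold φ
  rw [add_comm (x ^ 2), add_comm (x ^ 3)]

theorem U_core {n : ℕ} (α β : ℝ) (m P Q g1 g2 : Fin n → ℝ) (hm : ∀ c, 0 ≤ m c)
    (hP : ∀ c, 0 ≤ P c) (hQ : ∀ c, 0 ≤ Q c) (hPs : ∑ c, P c = β) (hQs : ∑ c, Q c = α)
    (h1' : ∀ c, g1 c ≤ 1) (h2' : ∀ c, g2 c ≤ 1) :
    ∑ c, (P c * g2 c * φ β (m c) α + Q c * g1 c * φ (m c) α β) ≤ 1 := by
  have hα : 0 ≤ α := by rw [← hQs]; exact Finset.sum_nonneg fun c _ => hQ c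
  have hβ : 0 ≤ β := by rw [← hPs]; exact Finset.sum_nonneg fun c _ => hP c
  obtain ⟨x, hx0, hx1, hx⟩ := share α β hα hβ
  have hP0 : ∀ c, β = 0 → P c = 0 := by
    intro c hb
    have h3 : P c ≤ ∑ c, P c := Finset.single_le_sum (fun c _ => hP c) (Finset.mem_univ c)
    have h4 := hP c
    rw [hPs, hb] at h3
    linarith
  have hQ0 : ∀ c, α = 0 → Q c = 0 := by
    intro c hb
    have h3 : Q c ≤ ∑ c, Q c := Finset.single_le_sum (fun c _ => hQ c) (Finset.mem_univ c)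
    have h4 := hQ c
    rw [hQs, hb] at h3
    linarith
  have hstep : ∀ c, P c * g2 c * φ β (m c) α + Q c * g1 c * φ (m c) α β
      ≤ P c * ((1 - x) / β) + Q c * (x / α) := by
    intro c
    have e1 : P c * g2 c * φ β (m c) α ≤ P c * φ (m c) β α := by
      rw [φ_symm β (m c) α, mul_assoc]
      refine mul_le_mul_of_nonneg_left ?_ (hP c)
      exact mul_le_of_le_one_left (φ_nonneg (hm c) hβ hα) (h2' c)
    have e2 : Q c * g1 c * φ (m c) α β ≤ Q c * φ (m c) α β := by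
      rw [mul_assoc]
      refine mul_le_mul_of_nonneg_left ?_ (hQ c)
      exact mul_le_of_le_one_left (φ_nonneg (hm c) hα hβ) (h1' c)
    have e3 : P c * φ (m c) β α ≤ P c * ((1 - x) / β) := by
      refine share_use hβ hα (hm c) (hP c) (hP0 c) ?_
      have := (hx (m c) (hm c)).2
      have h7 : β ^ 3 + α ^ 3 + m c ^ 3 = α ^ 3 + β ^ 3 + m c ^ 3 := by ring
      rw [h7]
      exact this
    have e4 : Q c * φ (m c) α β ≤ Q c * (x / α) :=
      share_use hα hβ (hm c) (hQ c) (hQ0 c) (hx (m c) (hm c)).1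
    linarith
  refine (Finset.sum_le_sum fun c _ => hstep c).trans ?_
  rw [Finset.sum_add_distrib, ← Finset.sum_mul, ← Finset.sum_mul, hPs, hQs]
  have e5 : β * ((1 - x) / β) ≤ 1 - x := by
    rcases hβ.eq_or_lt with h | h
    · rw [← h]; simp; linarith
    · rw [mul_div_cancel₀ _ h.ne']
  have e6 : α * (x / α) ≤ x := by
    rcases hα.eq_or_lt with h | h
    · rw [← h]; simp; linarith
    · rw [mul_div_cancel₀ _ h.ne']
  linarith

theorem V_core {n : ℕ} (π g h : Fin n → Fin n → ℝ) (x y z X Y : Fin n → ℝ)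
    (hx : ∀ a, 0 ≤ x a) (hy : ∀ a, 0 ≤ y a) (hz : ∀ a, 0 ≤ z a)
    (hπ : ∀ a b, 0 ≤ π a b) (hg' : ∀ b c, g b c ≤ 1)
    (hh' : ∀ c a, h c a ≤ 1) (hgs : ∀ b, ∑ c, g b c = Y b) (hhs : ∀ a, ∑ c, h c a = X a)
    (hX : ∀ a, 3 / 4 * (n : ℝ) ≤ X a) (hY : ∀ b, 3 / 4 * (n : ℝ) ≤ Y b) :
    1 / 2 * ∑ a, ∑ b, π a b * (X a * x a ^ 2 + Y b * y b ^ 2) ≤
      ∑ a, ∑ b, ∑ c, (x a ^ 3 + y b ^ 3 + z c ^ 3) *
        (π a b * g b c * h c a * φ (x a) (y b) (z c)) := by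
  rw [Finset.mul_sum]
  refine Finset.sum_le_sum fun a _ => ?_
  rw [Finset.mul_sum]
  refine Finset.sum_le_sum fun b _ => ?_
  have e1 : ∑ c, (x a ^ 3 + y b ^ 3 + z c ^ 3) * (π a b * g b c * h c a * φ (x a) (y b) (z c))
      = π a b * (3 / 4 * (x a ^ 2 + y b ^ 2)) * ∑ c, g b c * h c a := by
    rw [Finset.mul_sum]
    refine Finset.sum_congr rfl fun c _ => ?_
    rw [← φ_mul (hx a) (hy b) (hz c)]
    ring
  have e2 : X a + Y b - n ≤ ∑ c, g b c * h c a := by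
    have e3 : X a + Y b - n = ∑ c, (h c a + g b c - 1) := by
      rw [Finset.sum_sub_distrib, Finset.sum_add_distrib, hgs, hhs]
      simp
    rw [e3]
    refine Finset.sum_le_sum fun c _ => ?_
    nlinarith [mul_nonneg (sub_nonneg.2 (hg' b c)) (sub_nonneg.2 (hh' c a))]
  rw [e1]
  have hx2 : 0 ≤ x a ^ 2 := by positivity
  have hy2 : 0 ≤ y b ^ 2 := by positivity
  have e4 : 1 / 2 * (X a * x a ^ 2 + Y b * y b ^ 2) ≤
      3 / 4 * (x a ^ 2 + y b ^ 2) * (X a + Y b - n) := by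
    have hXa := hX a
    have hYb := hY b
    nlinarith [mul_nonneg hx2 (show 0 ≤ X a + 3 * Y b - 3 * (n : ℝ) by linarith),
      mul_nonneg hy2 (show 0 ≤ 3 * X a + Y b - 3 * (n : ℝ) by linarith)]
  calc 1 / 2 * (π a b * (X a * x a ^ 2 + Y b * y b ^ 2))
      = π a b * (1 / 2 * (X a * x a ^ 2 + Y b * y b ^ 2)) := by ring
    _ ≤ π a b * (3 / 4 * (x a ^ 2 + y b ^ 2) * (X a + Y b - n)) :=
        mul_le_mul_of_nonneg_left e4 (hπ a b)
    _ = π a b * (3 / 4 * (x a ^ 2 + y b ^ 2)) * (X a + Y b - n) := by ring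
    _ ≤ π a b * (3 / 4 * (x a ^ 2 + y b ^ 2)) * ∑ c, g b c * h c a :=
        mul_le_mul_of_nonneg_left e2 (mul_nonneg (hπ a b) (by positivity))

/-- The minimiser for tripartite graphs. -/
theorem exists_min3 {n : ℕ} (g0 g1 g2 : Fin n → Fin n → ℝ) (N0 N1 N2 : Fin n → ℝ)
    (h0 : ∀ a b, 0 ≤ g0 a b) (h0' : ∀ a b, g0 a b ≤ 1) (h1 : ∀ a b, 0 ≤ g1 a b)
    (h1' : ∀ a b, g1 a b ≤ 1) (h2 : ∀ a b, 0 ≤ g2 a b) (h2' : ∀ a b, g2 a b ≤ 1) :
    ∃ F : Fin n → Fin n → Fin n → ℝ, (∀ a b c, 0 ≤ F a b c) ∧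
      (∀ a b, ∑ c, F a b c ≤ g0 a b) ∧ (∀ b c, ∑ a, F a b c ≤ g1 b c) ∧
      (∀ c a, ∑ b, F a b c ≤ g2 c a) ∧
      ∀ G : Fin n → Fin n → Fin n → ℝ, (∀ a b c, 0 ≤ G a b c) →
        (∀ a b, ∑ c, F a b c = g0 a b → ∑ c, G a b c ≤ g0 a b) →
        (∀ b c, ∑ a, F a b c = g1 b c → ∑ a, G a b c ≤ g1 b c) →
        (∀ c a, ∑ b, F a b c = g2 c a → ∑ b, G a b c ≤ g2 c a) →
        (∑ a, (N0 a - ∑ b, ∑ c, F a b c) ^ 3 * ∑ b, ∑ c, G a b c) +
        (∑ b, (N1 b - ∑ a, ∑ c, F a b c) ^ 3 * ∑ a, ∑ c, G a b c) +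
        (∑ c, (N2 c - ∑ a, ∑ b, F a b c) ^ 3 * ∑ a, ∑ b, G a b c) ≤
        (∑ a, (N0 a - ∑ b, ∑ c, F a b c) ^ 3 * ∑ b, ∑ c, F a b c) +
        (∑ b, (N1 b - ∑ a, ∑ c, F a b c) ^ 3 * ∑ a, ∑ c, F a b c) +
        (∑ c, (N2 c - ∑ a, ∑ b, F a b c) ^ 3 * ∑ a, ∑ b, F a b c) := by
  classical
  set A : Fin n × Fin n × Fin n → (Fin n × Fin n) ⊕ ((Fin n × Fin n) ⊕ (Fin n × Fin n)) → ℝ :=
    fun t e => match e with
      | Sum.inl e => if t.1 = e.1 ∧ t.2.1 = e.2 then 1 else 0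
      | Sum.inr (Sum.inl e) => if t.2.1 = e.1 ∧ t.2.2 = e.2 then 1 else 0
      | Sum.inr (Sum.inr e) => if t.2.2 = e.1 ∧ t.1 = e.2 then 1 else 0 with hA
  set B : Fin n × Fin n × Fin n → Fin n ⊕ (Fin n ⊕ Fin n) → ℝ :=
    fun t v => match v with
      | Sum.inl v => if t.1 = v then 1 else 0
      | Sum.inr (Sum.inl v) => if t.2.1 = v then 1 else 0
      | Sum.inr (Sum.inr v) => if t.2.2 = v then 1 else 0 with hB
  set g : (Fin n × Fin n) ⊕ ((Fin n × Fin n) ⊕ (Fin n × Fin n)) → ℝ :=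
    Sum.elim (fun e => g0 e.1 e.2) (Sum.elim (fun e => g1 e.1 e.2) (fun e => g2 e.1 e.2)) with hg
  set N : Fin n ⊕ (Fin n ⊕ Fin n) → ℝ := Sum.elim N0 (Sum.elim N1 N2) with hN
  have lA0 : ∀ (F : Fin n × Fin n × Fin n → ℝ) a b,
      lin A F (Sum.inl (a, b)) = ∑ c, F (a, b, c) := by
    intro F a b
    simp only [lin, hA, Fintype.sum_prod_type]
    refine (Finset.sum_eq_single a (fun x _ hx => ?_) (by simp)).trans ?_
    · exact Finset.sum_eq_zero fun y _ => Finset.sum_eq_zero fun z _ => by simp [hx]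
    refine (Finset.sum_eq_single b (fun y _ hy => ?_) (by simp)).trans ?_
    · exact Finset.sum_eq_zero fun z _ => by simp [hy]
    exact Finset.sum_congr rfl fun z _ => by simp
  have lA1 : ∀ (F : Fin n × Fin n × Fin n → ℝ) b c,
      lin A F (Sum.inr (Sum.inl (b, c))) = ∑ a, F (a, b, c) := by
    intro F b c
    simp only [lin, hA, Fintype.sum_prod_type]
    refine Finset.sum_congr rfl fun x _ => ?_
    refine (Finset.sum_eq_single b (fun y _ hy => ?_) (by simp)).trans ?_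
    · exact Finset.sum_eq_zero fun z _ => by simp [hy]
    refine (Finset.sum_eq_single c (fun z _ hz => ?_) (by simp)).trans ?_
    · simp [hz]
    · simp
  have lA2 : ∀ (F : Fin n × Fin n × Fin n → ℝ) c a,
      lin A F (Sum.inr (Sum.inr (c, a))) = ∑ b, F (a, b, c) := by
    intro F c a
    simp only [lin, hA, Fintype.sum_prod_type]
    refine (Finset.sum_eq_single a (fun x _ hx => ?_) (by simp)).trans ?_
    · exact Finset.sum_eq_zero fun y _ => Finset.sum_eq_zero fun z _ => by simp [hx]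
    refine Finset.sum_congr rfl fun y _ => ?_
    refine (Finset.sum_eq_single c (fun z _ hz => ?_) (by simp)).trans ?_
    · simp [hz]
    · simp
  have lB0 : ∀ (F : Fin n × Fin n × Fin n → ℝ) a,
      lin B F (Sum.inl a) = ∑ b, ∑ c, F (a, b, c) := by
    intro F a
    simp only [lin, hB, Fintype.sum_prod_type]
    refine (Finset.sum_eq_single a (fun x _ hx => ?_) (by simp)).trans ?_
    · exact Finset.sum_eq_zero fun y _ => Finset.sum_eq_zero fun z _ => by simp [hx]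
    exact Finset.sum_congr rfl fun y _ => Finset.sum_congr rfl fun z _ => by simp
  have lB1 : ∀ (F : Fin n × Fin n × Fin n → ℝ) b,
      lin B F (Sum.inr (Sum.inl b)) = ∑ a, ∑ c, F (a, b, c) := by
    intro F b
    simp only [lin, hB, Fintype.sum_prod_type]
    refine Finset.sum_congr rfl fun x _ => ?_
    refine (Finset.sum_eq_single b (fun y _ hy => ?_) (by simp)).trans ?_
    · exact Finset.sum_eq_zero fun z _ => by simp [hy]
    exact Finset.sum_congr rfl fun z _ => by simp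
  have lB2 : ∀ (F : Fin n × Fin n × Fin n → ℝ) c,
      lin B F (Sum.inr (Sum.inr c)) = ∑ a, ∑ b, F (a, b, c) := by
    intro F c
    simp only [lin, hB, Fintype.sum_prod_type]
    refine Finset.sum_congr rfl fun x _ => ?_
    refine Finset.sum_congr rfl fun y _ => ?_
    refine (Finset.sum_eq_single c (fun z _ hz => ?_) (by simp)).trans ?_
    · simp [hz]
    · simp
  obtain ⟨F, hF0, hFl, hFm⟩ := exists_min A B g N
    (by
      intro t e
      rcases e with e | e | e <;> simp only [hA] <;> split_ifs <;> norm_num)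
    (by
      intro t
      exact ⟨Sum.inl (t.1, t.2.1), by simp [hA]⟩)
    (by
      intro e
      rcases e with e | e | e
      · exact h0 e.1 e.2
      · exact h1 e.1 e.2
      · exact h2 e.1 e.2)
    (by
      intro e
      rcases e with e | e | e
      · exact h0' e.1 e.2
      · exact h1' e.1 e.2
      · exact h2' e.1 e.2)
  refine ⟨fun a b c => F (a, b, c), fun a b c => hF0 _, ?_, ?_, ?_, ?_⟩
  · intro a b
    have := hFl (Sum.inl (a, b))
    rwa [lA0] at this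
  · intro b c
    have := hFl (Sum.inr (Sum.inl (b, c)))
    rwa [lA1] at this
  · intro c a
    have := hFl (Sum.inr (Sum.inr (c, a)))
    rwa [lA2] at this
  · intro G hG0 hG1 hG2 hG3
    have hm := hFm (fun t => G t.1 t.2.1 t.2.2) (fun t => hG0 _ _ _) (by
      intro e he
      rcases e with ⟨a, b⟩ | ⟨b, c⟩ | ⟨c, a⟩
      · rw [lA0] at he ⊢
        exact hG1 a b he
      · rw [lA1] at he ⊢
        exact hG2 b c he
      · rw [lA2] at he ⊢
        exact hG3 c a he)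
    simp only [Fintype.sum_sum_type, lB0, lB1, lB2, hN, Sum.elim_inl, Sum.elim_inr] at hm
    linarith [hm]


theorem half_sum {n : ℕ} (π : Fin n → Fin n → ℝ) (x y X Y : Fin n → ℝ)
    (h1 : ∀ a, ∑ b, π a b = x a) (h2 : ∀ b, ∑ a, π a b = y b) :
    1 / 2 * ∑ a, ∑ b, π a b * (X a * x a ^ 2 + Y b * y b ^ 2)
      = 1 / 2 * ∑ a, X a * x a ^ 3 + 1 / 2 * ∑ b, Y b * y b ^ 3 := by
  rw [← mul_add]
  congr 1
  have e1 : ∀ a, ∑ b, π a b * (X a * x a ^ 2 + Y b * y b ^ 2)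
      = X a * x a ^ 3 + ∑ b, π a b * (Y b * y b ^ 2) := by
    intro a
    have : ∑ b, π a b * (X a * x a ^ 2 + Y b * y b ^ 2)
        = (∑ b, π a b) * (X a * x a ^ 2) + ∑ b, π a b * (Y b * y b ^ 2) := by
      rw [Finset.sum_mul, ← Finset.sum_add_distrib]
      exact Finset.sum_congr rfl fun b _ => by ring
    rw [this, h1]
    ring
  rw [Finset.sum_congr rfl fun a _ => e1 a, Finset.sum_add_distrib]
  congr 1
  rw [Finset.sum_comm]
  refine Finset.sum_congr rfl fun b _ => ?_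
  rw [← Finset.sum_mul, h2]
  ring

/-- **The fractional theorem at `n / 4`.** Every weighted locally balanced tripartite graph with
parts of size `n` in which the missing weight at every vertex is at most `k`, `4 k ≤ n`, has a
fractional triangle decomposition. -/
theorem decomp {n : ℕ} {g : M3 ℝ n} {d : ZMod 3 → Fin n → ℝ} {k : ℝ} (S : WSetup g d k)
    (hk : 4 * k ≤ n) : ∃ w, IsDecomp g w := by
  obtain ⟨F, hF0, hF1, hF2, hF3, hmin⟩ := exists_min3 (g 0) (g 1) (g 2)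
    (fun a => n - d 0 a) (fun a => n - d 1 a) (fun a => n - d 2 a)
    (S.g0 0) (S.g1 0) (S.g0 1) (S.g1 1) (S.g0 2) (S.g1 2)
  have row : ∀ i a, ∑ b, g i a b = n - d i a := by
    intro i a
    have := S.row i a
    rw [Finset.sum_sub_distrib] at this
    simp at this
    linarith
  have col : ∀ i a, ∑ c, g (i + 2) c a = n - d i a := by
    intro i a
    have := S.col i a
    rw [Finset.sum_sub_distrib] at this
    simp at this
    linarith
  have col0 : ∀ a, ∑ c, g 2 c a = n - d 0 a := by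
    intro a; have := col 0 a; rwa [show (0 : ZMod 3) + 2 = 2 from rfl] at this
  have col1 : ∀ b, ∑ a, g 0 a b = n - d 1 b := by
    intro a; have := col 1 a; rwa [show (1 : ZMod 3) + 2 = 0 from rfl] at this
  have col2 : ∀ c, ∑ b, g 1 b c = n - d 2 c := by
    intro a; have := col 2 a; rwa [show (2 : ZMod 3) + 2 = 1 from rfl] at this
  set π0 : Fin n → Fin n → ℝ := fun a b => g 0 a b - ∑ c, F a b c with hπ0
  set π1 : Fin n → Fin n → ℝ := fun b c => g 1 b c - ∑ a, F a b c with hπ1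
  set π2 : Fin n → Fin n → ℝ := fun c a => g 2 c a - ∑ b, F a b c with hπ2
  set p0 : Fin n → ℝ := fun a => (n - d 0 a) - ∑ b, ∑ c, F a b c with hp0
  set p1 : Fin n → ℝ := fun b => (n - d 1 b) - ∑ a, ∑ c, F a b c with hp1
  set p2 : Fin n → ℝ := fun c => (n - d 2 c) - ∑ a, ∑ b, F a b c with hp2
  have hπ0' : ∀ a b, 0 ≤ π0 a b := fun a b => sub_nonneg.2 (hF1 a b)
  have hπ1' : ∀ a b, 0 ≤ π1 a b := fun a b => sub_nonneg.2 (hF2 a b)
  have hπ2' : ∀ a b, 0 ≤ π2 a b := fun a b => sub_nonneg.2 (hF3 a b)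
  have r0 : ∀ a, ∑ b, π0 a b = p0 a := by
    intro a
    simp only [hπ0, hp0, Finset.sum_sub_distrib, row]
  have r1 : ∀ b, ∑ c, π1 b c = p1 b := by
    intro b
    simp only [hπ1, hp1, Finset.sum_sub_distrib, row]
    rw [Finset.sum_comm]
  have r2 : ∀ c, ∑ a, π2 c a = p2 c := by
    intro c
    simp only [hπ2, hp2, Finset.sum_sub_distrib, row]
  have c0 : ∀ a, ∑ c, π2 c a = p0 a := by
    intro a
    simp only [hπ2, hp0, Finset.sum_sub_distrib, col0]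
    rw [Finset.sum_comm]
  have c1 : ∀ b, ∑ a, π0 a b = p1 b := by
    intro b
    simp only [hπ0, hp1, Finset.sum_sub_distrib, col1]
  have c2 : ∀ c, ∑ b, π1 b c = p2 c := by
    intro c
    simp only [hπ1, hp2, Finset.sum_sub_distrib, col2]
    rw [Finset.sum_comm]
  have p0n : ∀ a, 0 ≤ p0 a := fun a => by
    rw [← r0]; exact Finset.sum_nonneg fun b _ => hπ0' a b
  have p1n : ∀ a, 0 ≤ p1 a := fun a => by
    rw [← r1]; exact Finset.sum_nonneg fun b _ => hπ1' a b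
  have p2n : ∀ a, 0 ≤ p2 a := fun a => by
    rw [← r2]; exact Finset.sum_nonneg fun b _ => hπ2' a b
  set G : Fin n → Fin n → Fin n → ℝ := fun a b c =>
    π0 a b * g 1 b c * g 2 c a * φ (p0 a) (p1 b) (p2 c) +
    π1 b c * g 2 c a * g 0 a b * φ (p1 b) (p2 c) (p0 a) +
    π2 c a * g 0 a b * g 1 b c * φ (p2 c) (p0 a) (p1 b) with hG
  have hGn : ∀ a b c, 0 ≤ G a b c := by
    intro a b c
    have i1 := φ_nonneg (p0n a) (p1n b) (p2n c)
    have i2 := φ_nonneg (p1n b) (p2n c) (p0n a)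
    have i3 := φ_nonneg (p2n c) (p0n a) (p1n b)
    have j1 := S.g0 0 a b
    have j2 := S.g0 1 b c
    have j3 := S.g0 2 c a
    have k1 := hπ0' a b
    have k2 := hπ1' b c
    have k3 := hπ2' c a
    simp only [hG]
    positivity
  have hm := hmin G hGn
    (by
      intro a b hab
      have h0 : π0 a b = 0 := by simp only [hπ0]; rw [hab, sub_self]
      have h1 : ∑ c, G a b c = g 0 a b * ∑ c, (π1 b c * g 2 c a * φ (p1 b) (p2 c) (p0 a) +
          π2 c a * g 1 b c * φ (p2 c) (p0 a) (p1 b)) := by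
        rw [Finset.mul_sum]
        refine Finset.sum_congr rfl fun c _ => ?_
        simp only [hG, h0]
        ring
      rw [h1]
      exact mul_le_of_le_one_right (S.g0 0 a b) (U_core (p0 a) (p1 b) p2 (fun c => π1 b c)
        (fun c => π2 c a) (fun c => g 1 b c) (fun c => g 2 c a) p2n (fun c => hπ1' b c)
        (fun c => hπ2' c a) (r1 b) (c0 a) (fun c => S.g1 1 b c) (fun c => S.g1 2 c a)))
    (by
      intro b c hbc
      have h0 : π1 b c = 0 := by simp only [hπ1]; rw [hbc, sub_self]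
      have h1 : ∑ a, G a b c = g 1 b c * ∑ a, (π2 c a * g 0 a b * φ (p2 c) (p0 a) (p1 b) +
          π0 a b * g 2 c a * φ (p0 a) (p1 b) (p2 c)) := by
        rw [Finset.mul_sum]
        refine Finset.sum_congr rfl fun a _ => ?_
        simp only [hG, h0]
        ring
      rw [h1]
      exact mul_le_of_le_one_right (S.g0 1 b c) (U_core (p1 b) (p2 c) p0 (fun a => π2 c a)
        (fun a => π0 a b) (fun a => g 2 c a) (fun a => g 0 a b) p0n (fun a => hπ2' c a)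
        (fun a => hπ0' a b) (r2 c) (c1 b) (fun a => S.g1 2 c a) (fun a => S.g1 0 a b)))
    (by
      intro c a hca
      have h0 : π2 c a = 0 := by simp only [hπ2]; rw [hca, sub_self]
      have h1 : ∑ b, G a b c = g 2 c a * ∑ b, (π0 a b * g 1 b c * φ (p0 a) (p1 b) (p2 c) +
          π1 b c * g 0 a b * φ (p1 b) (p2 c) (p0 a)) := by
        rw [Finset.mul_sum]
        refine Finset.sum_congr rfl fun b _ => ?_
        simp only [hG, h0]
        ring
      rw [h1]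
      exact mul_le_of_le_one_right (S.g0 2 c a) (U_core (p2 c) (p0 a) p1 (fun b => π0 a b)
        (fun b => π1 b c) (fun b => g 0 a b) (fun b => g 1 b c) p1n (fun b => hπ0' a b)
        (fun b => hπ1' b c) (r0 a) (c2 c) (fun b => S.g1 0 a b) (fun b => S.g1 1 b c)))
  -- the values of the linear functional
  have hk0 : ∀ i a, 3 / 4 * (n : ℝ) ≤ n - d i a := by
    intro i a
    have := S.dk i a
    linarith
  have V0 := V_core π0 (g 1) (g 2) p0 p1 p2 (fun a => n - d 0 a) (fun a => n - d 1 a) p0n p1n p2n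
    hπ0' (S.g1 1) (S.g1 2) (row 1) col0 (hk0 0) (hk0 1)
  have V1 := V_core π1 (g 2) (g 0) p1 p2 p0 (fun a => n - d 1 a) (fun a => n - d 2 a) p1n p2n p0n
    hπ1' (S.g1 2) (S.g1 0) (row 2) col1 (hk0 1) (hk0 2)
  have V2 := V_core π2 (g 0) (g 1) p2 p0 p1 (fun a => n - d 2 a) (fun a => n - d 0 a) p2n p0n p1n
    hπ2' (S.g1 0) (S.g1 1) (row 0) col2 (hk0 2) (hk0 0)
  rw [half_sum π0 p0 p1 _ _ r0 c1] at V0
  rw [half_sum π1 p1 p2 _ _ r1 c2] at V1
  rw [half_sum π2 p2 p0 _ _ r2 c0] at V2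
  have hL : (∑ a, p0 a ^ 3 * ∑ b, ∑ c, G a b c) + (∑ b, p1 b ^ 3 * ∑ a, ∑ c, G a b c) +
      (∑ c, p2 c ^ 3 * ∑ a, ∑ b, G a b c) =
      (∑ a, ∑ b, ∑ c, (p0 a ^ 3 + p1 b ^ 3 + p2 c ^ 3) *
        (π0 a b * g 1 b c * g 2 c a * φ (p0 a) (p1 b) (p2 c))) +
      (∑ b, ∑ c, ∑ a, (p1 b ^ 3 + p2 c ^ 3 + p0 a ^ 3) *
        (π1 b c * g 2 c a * g 0 a b * φ (p1 b) (p2 c) (p0 a))) +
      (∑ c, ∑ a, ∑ b, (p2 c ^ 3 + p0 a ^ 3 + p1 b ^ 3) *
        (π2 c a * g 0 a b * g 1 b c * φ (p2 c) (p0 a) (p1 b))) := by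
    have s1 : (∑ a, p0 a ^ 3 * ∑ b, ∑ c, G a b c) = ∑ a, ∑ b, ∑ c, p0 a ^ 3 * G a b c := by
      simp only [Finset.mul_sum]
    have s2 : (∑ b, p1 b ^ 3 * ∑ a, ∑ c, G a b c) = ∑ a, ∑ b, ∑ c, p1 b ^ 3 * G a b c := by
      simp only [Finset.mul_sum]
      rw [Finset.sum_comm]
    have s3 : (∑ c, p2 c ^ 3 * ∑ a, ∑ b, G a b c) = ∑ a, ∑ b, ∑ c, p2 c ^ 3 * G a b c := by
      simp only [Finset.mul_sum]
      rw [Finset.sum_comm]
      exact Finset.sum_congr rfl fun a _ => Finset.sum_comm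
    have s4 : (∑ b, ∑ c, ∑ a, (p1 b ^ 3 + p2 c ^ 3 + p0 a ^ 3) *
        (π1 b c * g 2 c a * g 0 a b * φ (p1 b) (p2 c) (p0 a))) =
        ∑ a, ∑ b, ∑ c, (p1 b ^ 3 + p2 c ^ 3 + p0 a ^ 3) *
        (π1 b c * g 2 c a * g 0 a b * φ (p1 b) (p2 c) (p0 a)) := by
      rw [Finset.sum_comm (f := fun a b => ∑ c, (p1 b ^ 3 + p2 c ^ 3 + p0 a ^ 3) *
        (π1 b c * g 2 c a * g 0 a b * φ (p1 b) (p2 c) (p0 a)))]
      exact Finset.sum_congr rfl fun b _ => Finset.sum_comm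
    have s5 : (∑ c, ∑ a, ∑ b, (p2 c ^ 3 + p0 a ^ 3 + p1 b ^ 3) *
        (π2 c a * g 0 a b * g 1 b c * φ (p2 c) (p0 a) (p1 b))) =
        ∑ a, ∑ b, ∑ c, (p2 c ^ 3 + p0 a ^ 3 + p1 b ^ 3) *
        (π2 c a * g 0 a b * g 1 b c * φ (p2 c) (p0 a) (p1 b)) := by
      rw [Finset.sum_comm]
      exact Finset.sum_congr rfl fun a _ => Finset.sum_comm
    rw [s1, s2, s3, s4, s5]
    simp only [← Finset.sum_add_distrib]
    refine Finset.sum_congr rfl fun a _ => Finset.sum_congr rfl fun b _ =>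
      Finset.sum_congr rfl fun c _ => ?_
    simp only [hG]
    ring
  have hR : ∀ (p X L : Fin n → ℝ), (∀ a, p a = X a - L a) →
      ∑ a, p a ^ 3 * L a = ∑ a, X a * p a ^ 3 - ∑ a, p a ^ 4 := by
    intro p X L h
    rw [← Finset.sum_sub_distrib]
    refine Finset.sum_congr rfl fun a _ => ?_
    have : L a = X a - p a := by rw [h a]; ring
    rw [this]
    ring
  have hm' : (∑ a, p0 a ^ 3 * ∑ b, ∑ c, G a b c) + (∑ b, p1 b ^ 3 * ∑ a, ∑ c, G a b c) +
      (∑ c, p2 c ^ 3 * ∑ a, ∑ b, G a b c) ≤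
      (∑ a, p0 a ^ 3 * ∑ b, ∑ c, F a b c) + (∑ b, p1 b ^ 3 * ∑ a, ∑ c, F a b c) +
      (∑ c, p2 c ^ 3 * ∑ a, ∑ b, F a b c) := hm
  rw [hL, hR p0 (fun a => n - d 0 a) _ (fun a => rfl), hR p1 (fun a => n - d 1 a) _ (fun a => rfl),
    hR p2 (fun a => n - d 2 a) _ (fun a => rfl)] at hm'
  have n0 : 0 ≤ ∑ a, p0 a ^ 4 := Finset.sum_nonneg fun a _ => by positivity
  have n1 : 0 ≤ ∑ a, p1 a ^ 4 := Finset.sum_nonneg fun a _ => by positivity
  have n2 : 0 ≤ ∑ a, p2 a ^ 4 := Finset.sum_nonneg fun a _ => by positivity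
  have z0 : ∑ a, p0 a ^ 4 = 0 := by linarith
  have z1 : ∑ a, p1 a ^ 4 = 0 := by linarith
  have z2 : ∑ a, p2 a ^ 4 = 0 := by linarith
  have zz : ∀ (p : Fin n → ℝ), ∑ a, p a ^ 4 = 0 → ∀ a, p a = 0 := by
    intro p hp a
    have := (Finset.sum_eq_zero_iff_of_nonneg (fun a _ => by positivity)).1 hp a (Finset.mem_univ a)
    simpa using this
  have zp0 := zz p0 z0
  have zp1 := zz p1 z1
  have zp2 := zz p2 z2
  have e0 : ∀ a b, π0 a b = 0 := by
    intro a b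
    have h1 : π0 a b ≤ ∑ b, π0 a b :=
      Finset.single_le_sum (fun b _ => hπ0' a b) (Finset.mem_univ b)
    rw [r0, zp0] at h1
    exact le_antisymm h1 (hπ0' a b)
  have e1 : ∀ a b, π1 a b = 0 := by
    intro a b
    have h1 : π1 a b ≤ ∑ b, π1 a b :=
      Finset.single_le_sum (fun b _ => hπ1' a b) (Finset.mem_univ b)
    rw [r1, zp1] at h1
    exact le_antisymm h1 (hπ1' a b)
  have e2 : ∀ a b, π2 a b = 0 := by
    intro a b
    have h1 : π2 a b ≤ ∑ b, π2 a b :=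
      Finset.single_le_sum (fun b _ => hπ2' a b) (Finset.mem_univ b)
    rw [r2, zp2] at h1
    exact le_antisymm h1 (hπ2' a b)
  exact ⟨F, hF0, fun a b => (sub_eq_zero.1 (e0 a b)).symm, fun b c => (sub_eq_zero.1 (e1 b c)).symm,
    fun c a => (sub_eq_zero.1 (e2 c a)).symm⟩

/-- `NW3.FT (1/4)`. -/
theorem ft_quarter : NW3.FT (1 / 4) := by
  intro m g d S
  exact decomp S (by linarith)

end H30Q
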